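import Pool.Agent.Mg.F047cd2p.G645afa

open Pool.Agent.MP_047cd2_co

/-- Every planar lattice section spans asymptotically at least as many distinct triangles as the
square lattice section. -/
theorem Pool.Agent.Results.MP_047cd2_co.SquareLatticeMinimal.result :
    ∀ a b : Plane, LinearIndependent ℝ ![a, b] →
      lowerDensity !₂[1, 0] !₂[0, 1] ≤ lowerDensity a b :=
  Pool.Agent.MP_047cd2_co.main
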